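import Pool.Agent.Q239.HT.LPNB

/-! Project HT (helper99), job LPN (helper239), part 3: Taylor's formula, quadratic forms. -/

set_option autoImplicit false

namespace Pool.Agent.Q239.HT

open Finset Filter Topology MeasureTheory
open Pool.Agent.Q99.HT
open Pool.Agent.Q99.KN (bb ct St LC S_LC S_GAM S_LAP S_GIM ez kz th)
open Pool.Agent.Q251.KN (taylor2 fz Eg fac_z IsQF eg_norm eg_tendsto fz_bound div_sqrt_tendsto sin_ne_of_im)

variable {c d : ℕ}

section taylor
variable {X : Nw c d} {r κ K C0 : ℝ}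

theorem Rg_open {T a : Fin d → ℂ} {J b ζ g : Fin c → ℂ} (h0 : X.Rg r T J ζ) :
    ∀ᶠ t : ℝ in 𝓝 0, X.Rg r (fun j => T j + t * a j) (fun s => J s + t * b s) (fun s => ζ s + t * g s) := by
  unfold Nw.Rg
  rw [eventually_all]
  intro s
  have h1 : ∀ᶠ t : ℝ in 𝓝 0, X.v T J s + (t : ℂ) • X.dv a b s ∈ Metric.ball (vC (X.α s)) r := by
    have hc : ContinuousAt (fun t : ℝ => X.v T J s + (t : ℂ) • X.dv a b s) 0 := by fun_prop
    refine hc.eventually_mem (Metric.isOpen_ball.mem_nhds ?_)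
    simpa using (h0 s).1
  have h2 : ∀ᶠ t : ℝ in 𝓝 0, ‖ζ s + t * g s‖ < r := by
    have hc : ContinuousAt (fun t : ℝ => ‖ζ s + t * g s‖) 0 := by fun_prop
    exact hc.eventually_lt continuousAt_const (by simpa using (h0 s).2)
  filter_upwards [h1, h2] with t h3 h4
  rw [v_line]
  exact ⟨h3, h4⟩

theorem Ph_taylor (hB : ∀ s, Blk (X.α s) r κ K C0) {w : Fin c → ℤ} {T : Fin d → ℂ} {J ζ : Fin c → ℂ}
    (hcr : X.Cr w T J ζ) (hrg : X.Rg r T J ζ) (a : Fin d → ℝ) (b g : Fin c → ℝ)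
    (hb : ∀ s, X.α s 1 = 0 → b s = 0) :
    Tendsto (fun N : ℕ => (N : ℂ) * (X.Ph w (fun j => T j + ((a j / √(N:ℝ) : ℝ) : ℂ))
      (fun s => J s + ((b s / √(N:ℝ) : ℝ) : ℂ)) (fun s => ζ s + ((g s / √(N:ℝ) : ℝ) : ℂ)) - X.Ph w T J ζ))
      atTop (𝓝 (X.HP w T J ζ (fun j => (a j : ℂ)) (fun s => (b s : ℂ)) (fun s => (g s : ℂ))
        (fun j => (a j : ℂ)) (fun s => (b s : ℂ)) (fun s => (g s : ℂ)) / 2)) := by
  have hopen := Rg_open (X := X) (r := r) (a := fun j => (a j : ℂ)) (b := fun s => (b s : ℂ))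
    (g := fun s => (g s : ℂ)) hrg
  have h3 := taylor2
    (φ := fun t : ℝ => X.Ph w (fun j => T j + t * (a j : ℂ)) (fun s => J s + t * (b s : ℂ))
      (fun s => ζ s + t * (g s : ℂ)))
    (D := fun t : ℝ => X.GP w (fun j => T j + t * (a j : ℂ)) (fun s => J s + t * (b s : ℂ))
      (fun s => ζ s + t * (g s : ℂ)) (fun j => (a j : ℂ)) (fun s => (b s : ℂ)) (fun s => (g s : ℂ)))
    (D' := X.HP w T J ζ (fun j => (a j : ℂ)) (fun s => (b s : ℂ)) (fun s => (g s : ℂ))
        (fun j => (a j : ℂ)) (fun s => (b s : ℂ)) (fun s => (g s : ℂ)))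
    (by
      filter_upwards [hopen] with t ht
      exact (Ph_line hB w ht 0 0 0).1)
    (by
      simp only [Complex.ofReal_zero, zero_mul, add_zero]
      exact hcr.eq _ _ _ (fun s hs => by rw [hb s hs]; simp))
    (by
      have ht : X.Rg r (fun j => T j + ((0:ℝ) : ℂ) * (a j : ℂ)) (fun s => J s + ((0:ℝ) : ℂ) * (b s : ℂ))
          (fun s => ζ s + ((0:ℝ) : ℂ) * (g s : ℂ)) := by
        simpa using hrg
      have h4 := (Ph_line hB w ht (fun j => (a j : ℂ)) (fun s => (b s : ℂ)) (fun s => (g s : ℂ))).2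
      simp only [Complex.ofReal_zero, zero_mul, add_zero] at h4
      exact h4)
  refine h3.congr fun N => ?_
  have e1 : ∀ c : ℝ, (((1 / √(N:ℝ) : ℝ)) : ℂ) * (c : ℂ) = ((c / √(N:ℝ) : ℝ) : ℂ) := by
    intro c
    push_cast
    ring
  simp only [e1, Complex.ofReal_zero, zero_mul, add_zero]

end taylor

/-! ### quadratic forms -/

/-- a linear form -/
def IsLin {ι : Type} [Fintype ι] (f : (ι → ℝ) → ℂ) : Prop := ∃ A : ι → ℂ, ∀ u, f u = ∑ i, A i * u i

theorem IsLin.add {ι : Type} [Fintype ι] {f g : (ι → ℝ) → ℂ} (hf : IsLin f) (hg : IsLin g) :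
    IsLin fun u => f u + g u := by
  obtain ⟨A, hA⟩ := hf
  obtain ⟨B, hB⟩ := hg
  refine ⟨fun i => A i + B i, fun u => ?_⟩
  simp only
  rw [hA, hB, ← sum_add_distrib]
  exact sum_congr rfl fun i _ => by ring

theorem IsLin.const_mul {ι : Type} [Fintype ι] {f : (ι → ℝ) → ℂ} (k : ℂ) (hf : IsLin f) :
    IsLin fun u => k * f u := by
  obtain ⟨A, hA⟩ := hf
  refine ⟨fun i => k * A i, fun u => ?_⟩
  simp only
  rw [hA, mul_sum]
  exact sum_congr rfl fun i _ => by ring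

theorem IsLin.zero {ι : Type} [Fintype ι] : IsLin fun _ : ι → ℝ => (0 : ℂ) :=
  ⟨fun _ => 0, fun u => by simp⟩

theorem IsLin.coord {ι : Type} [Fintype ι] [DecidableEq ι] (i : ι) : IsLin fun u : ι → ℝ => (u i : ℂ) :=
  ⟨fun j => if j = i then 1 else 0, fun u => by simp⟩

theorem IsLin.sum {ι : Type} [Fintype ι] {β : Type} (s : Finset β) {f : β → (ι → ℝ) → ℂ}
    (hf : ∀ a, IsLin (f a)) : IsLin fun u => ∑ a ∈ s, f a u := by
  classical
  induction s using Finset.induction_on with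
  | empty => simpa using IsLin.zero
  | insert a s ha ih =>
    simp only [sum_insert ha]
    exact (hf a).add ih

theorem IsLin.congr {ι : Type} [Fintype ι] {f g : (ι → ℝ) → ℂ} (hf : IsLin f)
    (h : ∀ u, g u = f u) : IsLin g := by
  obtain ⟨A, hA⟩ := hf
  exact ⟨A, fun u => by rw [h, hA]⟩

theorem IsLin.mul {ι : Type} [Fintype ι] {f g : (ι → ℝ) → ℂ} (hf : IsLin f) (hg : IsLin g) :
    IsQF fun u => f u * g u := by
  obtain ⟨A, hA⟩ := hf
  obtain ⟨B, hB⟩ := hg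
  refine ⟨fun i j => A i * B j, fun u => ?_⟩
  simp only
  rw [hA, hB, sum_mul_sum]
  exact sum_congr rfl fun i _ => sum_congr rfl fun j _ => by ring

theorem qf_const_mul {ι : Type} [Fintype ι] {f : (ι → ℝ) → ℂ} (k : ℂ) (hf : IsQF f) :
    IsQF fun u => k * f u := by
  obtain ⟨A, hA⟩ := hf
  refine ⟨fun i j => k * A i j, fun u => ?_⟩
  simp only
  rw [hA, mul_sum]
  refine sum_congr rfl fun i _ => ?_
  rw [mul_sum]
  exact sum_congr rfl fun j _ => by ring

/-- the summation indices as real numbers -/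
noncomputable def bv (X : Nw c d) (u : X.Ix → ℝ) (s : Fin c) : ℝ :=
  if h : X.α s 1 ≠ 0 then u (.inr (.inl ⟨s, h⟩)) else 0

theorem bv_zero (X : Nw c d) (u : X.Ix → ℝ) {s : Fin c} (h : X.α s 1 = 0) : bv X u s = 0 := by
  unfold bv
  rw [dif_neg (not_not.2 h)]

theorem bv_smul (X : Nw c d) (u : X.Ix → ℝ) (k : ℝ) (s : Fin c) :
    bv X (fun i => u i / k) s = bv X u s / k := by
  unfold bv
  split_ifs
  · rfl
  · simp

theorem bv_sum (X : Nw c d) (u : X.Ix → ℝ) :
    ∑ s, bv X u s ^ 2 = ∑ s : {s : Fin c // X.α s 1 ≠ 0}, u (.inr (.inl s)) ^ 2 := by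
  classical
  have h1 : ∑ s, bv X u s ^ 2 = ∑ s with X.α s 1 ≠ 0, bv X u s ^ 2 := by
    rw [sum_filter]
    refine sum_congr rfl fun s _ => ?_
    split_ifs with h
    · rfl
    · rw [bv_zero X u (not_not.1 h)]
      ring
  rw [h1, ← sum_subtype_eq_sum_filter]
  rw [show (Finset.subtype (fun s => X.α s 1 ≠ 0) univ) = univ from by ext; simp]
  refine sum_congr rfl fun s _ => ?_
  unfold bv
  rw [dif_pos s.2]

theorem Ix_sum (X : Nw c d) (f : X.Ix → ℝ) :
    ∑ i, f i = ∑ j, f (.inl j) + (∑ s : {s : Fin c // X.α s 1 ≠ 0}, f (.inr (.inl s)) +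
      ∑ s, f (.inr (.inr s))) := by
  rw [Fintype.sum_sum_type, Fintype.sum_sum_type]

theorem HP_qf (X : Nw c d) (w : Fin c → ℤ) (T : Fin d → ℂ) (J ζ : Fin c → ℂ) :
    IsQF fun u : X.Ix → ℝ => X.HP w T J ζ (fun j => (u (.inl j) : ℂ)) (fun s => (bv X u s : ℂ))
      (fun s => (u (.inr (.inr s)) : ℂ)) (fun j => (u (.inl j) : ℂ)) (fun s => (bv X u s : ℂ))
      (fun s => (u (.inr (.inr s)) : ℂ)) / 2 := by
  classical
  have hb : ∀ s, IsLin fun u : X.Ix → ℝ => (bv X u s : ℂ) := by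
    intro s
    by_cases h : X.α s 1 = 0
    · exact IsLin.zero.congr fun u => by rw [bv_zero X u h]; simp
    · exact (IsLin.coord (ι := X.Ix) (.inr (.inl ⟨s, h⟩))).congr fun u => by
        unfold bv
        rw [dif_pos h]
  have hg : ∀ s, IsLin fun u : X.Ix → ℝ => (u (.inr (.inr s)) : ℂ) := fun s => IsLin.coord _
  have hE : ∀ s i, IsLin fun u : X.Ix → ℝ => ∑ j, (u (.inl j) : ℂ) * X.E j s i := fun s i =>
    IsLin.sum _ fun j => ((IsLin.coord (ι := X.Ix) (.inl j)).const_mul (X.E j s i : ℂ)).congr fun u => by ring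
  have hlf : ∀ s i, IsLin fun u : X.Ix → ℝ =>
      lf (X.dv (fun j => (u (.inl j) : ℂ)) (fun s => (bv X u s : ℂ)) s) i := by
    intro s i
    fin_cases i
    · exact hE s 0
    · exact hb s
    · exact (hE s 0).add (hb s)
    · exact hE s 2
    · exact ((hE s 1).add ((hb s).const_mul (-1))).congr fun u => by
        show _ - _ = _ + -1 * _
        ring_nf
        rfl
    · exact ((hE s 2).add ((hE s 1).add ((hb s).const_mul (-1)))).congr fun u => by
        show _ + (_ - _) = _ + (_ + -1 * _)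
        ring_nf
        rfl
  have hPH : ∀ s, IsQF fun u : X.Ix → ℝ => PH (X.α s) (X.v T J s) (ζ s)
      (X.dv (fun j => (u (.inl j) : ℂ)) (fun s => (bv X u s : ℂ)) s) (u (.inr (.inr s)) : ℂ)
      (X.dv (fun j => (u (.inl j) : ℂ)) (fun s => (bv X u s : ℂ)) s) (u (.inr (.inr s)) : ℂ) := by
    intro s
    unfold PH
    refine IsQF.sum _ fun i => ?_
    by_cases hi : ctr (X.α s) i = 0
    · exact IsQF.zero.congr fun u => by rw [if_pos hi]
    · have ha : IsLin fun u : X.Ix → ℝ => s6 i * (u (.inr (.inr s)) : ℂ) / 2 :=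
        ((hg s).const_mul (s6 i / 2)).congr fun u => by ring
      have hl := hlf s i
      have h1 := qf_const_mul (hf := ha.mul ha) (k := ct (nz (ζ s) i) - ct (nz (ζ s) i - lf (X.v T J s) i))
      have h2 := qf_const_mul (hf := ha.mul hl) (k := 2 * ct (nz (ζ s) i - lf (X.v T J s) i))
      have h3 := qf_const_mul (hf := hl.mul hl) (k := -(ct (nz (ζ s) i - lf (X.v T J s) i) + ct (lf (X.v T J s) i)))
      refine ((h1.add h2).add h3).congr fun u => ?_
      rw [if_neg hi]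
      unfold hT
      ring
  have h : IsQF fun u : X.Ix → ℝ => (1 / 2 : ℂ) * ∑ s, (PH (X.α s) (X.v T J s) (ζ s)
      (X.dv (fun j => (u (.inl j) : ℂ)) (fun s => (bv X u s : ℂ)) s) (u (.inr (.inr s)) : ℂ)
      (X.dv (fun j => (u (.inl j) : ℂ)) (fun s => (bv X u s : ℂ)) s) (u (.inr (.inr s)) : ℂ) +
      (Complex.I * Real.pi * w s / 2) * ((u (.inr (.inr s)) : ℂ) * (u (.inr (.inr s)) : ℂ))) :=
    qf_const_mul _ (IsQF.sum _ fun s => (hPH s).add (qf_const_mul _ ((hg s).mul (hg s))))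
  refine h.congr fun u => ?_
  unfold Nw.HP
  rw [div_eq_mul_inv, mul_comm, one_div]
  congr 1
  refine sum_congr rfl fun s _ => ?_
  ring

end Pool.Agent.Q239.HT
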