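import Pool.Agent.Q239.HT.LPNC

/-! Project HT (helper99), job LPN (helper239), part 4: the box. -/

set_option autoImplicit false

namespace Pool.Agent.Q239.HT

open Finset Filter Topology MeasureTheory
open Pool.Agent.Q99.HT
open Pool.Agent.Q99.KN (bb ct St LC S_LC S_GAM S_LAP S_GIM ez kz th jN)
open Pool.Agent.Q251.KN (taylor2 fz Eg fac_z IsQF eg_norm eg_tendsto fz_bound div_sqrt_tendsto sin_ne_of_im)

variable {c d : ℕ}

/-- the real parts of the critical point -/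
noncomputable def pr (X : Nw c d) (T : Fin d → ℂ) (J ζ : Fin c → ℂ) : X.Ix → ℝ
  | .inl j => (T j).re
  | .inr (.inl s) => (J s).re
  | .inr (.inr s) => (ζ s).re

/-- the translated box -/
def Sx (X : Nw c d) (r δ : ℝ) (N : ℕ) (T : Fin d → ℂ) (J ζ : Fin c → ℂ) : Set (X.Ix → ℝ) :=
  {v | v + pr X T J ζ ∈ X.Bx r δ N}

/-- the translated points -/
noncomputable def Tv (X : Nw c d) (T : Fin d → ℂ) (v : X.Ix → ℝ) (j : Fin d) : ℂ :=
  T j + (v (.inl j) : ℂ)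
noncomputable def Jv (X : Nw c d) (J : Fin c → ℂ) (v : X.Ix → ℝ) (s : Fin c) : ℂ :=
  J s + (bv X v s : ℂ)
noncomputable def Zv (X : Nw c d) (ζ : Fin c → ℂ) (v : X.Ix → ℝ) (s : Fin c) : ℂ :=
  ζ s + (v (.inr (.inr s)) : ℂ)

theorem bx_closed (X : Nw c d) (r δ : ℝ) (N : ℕ) : IsClosed (X.Bx r δ N) := by
  unfold Nw.Bx Nw.bx
  have h1 : IsClosed {u : X.Ix → ℝ | (fun j => u (.inl j)) ∈ Set.univ.pi fun j =>
      Set.Icc (lo N ⌈(N : ℝ) * (X.τ j - δ)⌉) (hi N ⌊(N : ℝ) * (X.τ j + δ)⌋)} := by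
    refine IsClosed.preimage (f := fun (u : X.Ix → ℝ) (j : Fin d) => u (.inl j)) (by fun_prop) ?_
    exact isClosed_set_pi fun j _ => isClosed_Icc
  have h2 : IsClosed {u : X.Ix → ℝ | ∀ s : {s : Fin c // X.α s 1 ≠ 0}, u (.inr (.inl s)) ∈
      Set.Icc (lo N ⌈(N : ℝ) * (X.α s 1 - r / 4)⌉) (hi N ⌊(N : ℝ) * (X.α s 1 + r / 4)⌋)} := by
    rw [Set.ofPred_forall]
    exact isClosed_iInter fun j => isClosed_Icc.preimage (continuous_apply _)
  have h3 : IsClosed {u : X.Ix → ℝ | ∀ s, u (.inr (.inr s)) ∈ Set.Icc (-th r N) (th r N)} := by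
    rw [Set.ofPred_forall]
    exact isClosed_iInter fun j => isClosed_Icc.preimage (continuous_apply _)
  exact h1.inter (h2.inter h3)

theorem sx_closed (X : Nw c d) (r δ : ℝ) (N : ℕ) (T : Fin d → ℂ) (J ζ : Fin c → ℂ) :
    IsClosed (Sx X r δ N T J ζ) :=
  (bx_closed X r δ N).preimage (continuous_id.add continuous_const)

theorem lo_bd {N : ℕ} (hN : 1 ≤ N) (x : ℝ) : x - 1 / (2 * N) ≤ lo N ⌈(N : ℝ) * x⌉ ∧
    lo N ⌈(N : ℝ) * x⌉ ≤ x + 1 / (2 * N) := by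
  have h0 : (0:ℝ) < N := by exact_mod_cast hN
  have h1 := Int.le_ceil ((N : ℝ) * x)
  have h2 := Int.ceil_lt_add_one ((N : ℝ) * x)
  have e : (1:ℝ) / (2 * N) = (1 / 2) / N := by field_simp
  unfold lo
  rw [e]
  constructor
  · rw [le_div_iff₀ h0, sub_mul, div_mul_cancel₀ _ h0.ne']
    linarith
  · rw [div_le_iff₀ h0, add_mul, div_mul_cancel₀ _ h0.ne']
    linarith

theorem hi_bd {N : ℕ} (hN : 1 ≤ N) (x : ℝ) : x - 1 / (2 * N) ≤ hi N ⌊(N : ℝ) * x⌋ ∧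
    hi N ⌊(N : ℝ) * x⌋ ≤ x + 1 / (2 * N) := by
  have h0 : (0:ℝ) < N := by exact_mod_cast hN
  have h1 := Int.floor_le ((N : ℝ) * x)
  have h2 := Int.lt_floor_add_one ((N : ℝ) * x)
  have e : (1:ℝ) / (2 * N) = (1 / 2) / N := by field_simp
  unfold hi
  rw [e]
  constructor
  · rw [le_div_iff₀ h0, sub_mul, div_mul_cancel₀ _ h0.ne']
    linarith
  · rw [div_le_iff₀ h0, add_mul, div_mul_cancel₀ _ h0.ne']
    linarith

theorem th_bd {N : ℕ} (hN : 1 ≤ N) {r : ℝ} (hr : 0 < r) (hr1 : r ≤ 1) :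
    r / 4 - 2 / N ≤ th r N ∧ th r N ≤ r / 4 := by
  have h0 : (0:ℝ) < N := by exact_mod_cast hN
  have h3 := Nat.le_ceil ((1 - r / 4) * (N : ℝ) / 2)
  have h4 := Nat.ceil_lt_add_one (show 0 ≤ (1 - r / 4) * (N : ℝ) / 2 by
    apply div_nonneg (mul_nonneg (by linarith) h0.le) (by norm_num))
  unfold th jN
  constructor
  · rw [le_sub_comm, div_le_iff₀ h0]
    have : (1 - (r / 4 - 2 / (N:ℝ))) * N = (1 - r / 4) * N + 2 := by field_simp; ring
    rw [this]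
    linarith
  · rw [sub_le_comm, le_div_iff₀ h0]
    linarith

/-- points near the centre -/
theorem rg_of_near {X : Nw c d} {r κ K C0 δ : ℝ} (hB : ∀ s, Blk (X.α s) r κ K C0)
    (hδ : ∀ s, ∀ T : Fin d → ℂ, (∀ j, ‖T j - X.τ j‖ ≤ 2 * δ) →
      X.x T s ∈ Metric.ball (qC (X.α s)) (r / 4))
    {T : Fin d → ℂ} {J ζ : Fin c → ℂ} (hT : ∀ j, ‖T j - X.τ j‖ ≤ 2 * δ)
    (hJ : ∀ s, ‖J s - X.α s 1‖ < r / 2) (hζ : ∀ s, ‖ζ s‖ < r / 2) : X.Rg (r / 2) T J ζ := by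
  intro s
  have hr := (hB s).r0
  refine ⟨?_, hζ s⟩
  have h1 := hδ s T hT
  rw [mem_ball_iff_norm, pi_norm_lt_iff (by linarith)] at h1
  rw [mem_ball_iff_norm, pi_norm_lt_iff (by linarith)]
  intro i
  have h0 : ‖X.x T s 0 - (X.α s 0 : ℂ)‖ < r / 4 := h1 0
  have h2 : ‖X.x T s 1 - ((X.α s 1 + X.α s 4 : ℝ) : ℂ)‖ < r / 4 := h1 1
  have h3 : ‖X.x T s 2 - (X.α s 3 : ℂ)‖ < r / 4 := h1 2
  fin_cases i
  · show ‖X.x T s 0 - (X.α s 0 : ℂ)‖ < r / 2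
    linarith
  · show ‖X.x T s 1 - ((X.α s 1 : ℂ) + (X.α s 4 : ℂ))‖ < r / 2
    push_cast at h2
    linarith
  · show ‖X.x T s 2 - (X.α s 3 : ℂ)‖ < r / 2
    linarith
  · show ‖J s - (X.α s 1 : ℂ)‖ < r / 2
    exact hJ s

section pts
variable {X : Nw c d} {r κ K C0 δ ρ : ℝ}

/-- a complex number near a real one -/
theorem near_re {z : ℂ} {x v δ ρ : ℝ} (h1 : |v + z.re - x| ≤ δ) (h2 : |z.im| ≤ ρ) :
    ‖z + (v : ℂ) - x‖ ≤ δ + ρ := by
  have h7 := Complex.norm_le_abs_re_add_abs_im (z + (v : ℂ) - x)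
  have h8 : (z + (v : ℂ) - x).im = z.im := by simp
  have h9 : (z + (v : ℂ) - x).re = v + z.re - x := by simp; ring
  rw [h8, h9] at h7
  linarith

theorem im_le {z : ℂ} {x ρ : ℝ} (h : ‖z - x‖ < ρ) : |z.im| ≤ ρ := by
  have h1 := Complex.abs_im_le_norm (z - x)
  have h2 : (z - x).im = z.im := by simp
  rw [h2] at h1
  linarith

theorem re_lt {z : ℂ} {x ρ : ℝ} (h : ‖z - x‖ < ρ) : |z.re - x| < ρ := by
  have h1 := Complex.abs_re_le_norm (z - x)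
  have h2 : (z - x).re = z.re - x := by simp
  rw [h2] at h1
  linarith

theorem sx_mem (hB : ∀ s, Blk (X.α s) r κ K C0)
    (hδ : ∀ s, ∀ T : Fin d → ℂ, (∀ j, ‖T j - X.τ j‖ ≤ 2 * δ) →
      X.x T s ∈ Metric.ball (qC (X.α s)) (r / 4)) (hρδ : ρ ≤ δ / 2) (hρr : ∀ s : Fin c, ρ ≤ r / 16)
    {T : Fin d → ℂ} {J ζ : Fin c → ℂ} (hn : X.Nr ρ T J ζ) (haj : X.AJ J)
    {N : ℕ} (hN1 : 1 ≤ N) (hNδ : 1 / (2 * (N:ℝ)) ≤ δ / 2) (hNr : ∀ s : Fin c, 1 / (2 * (N:ℝ)) ≤ r / 16)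
    {v : X.Ix → ℝ} (hv : v ∈ Sx X r δ N T J ζ) : X.Rg (r / 2) (Tv X T v) (Jv X J v) (Zv X ζ v) := by
  obtain ⟨h1, h2, h3⟩ := hv
  obtain ⟨hT, hJ, hζ⟩ := hn
  refine rg_of_near hB hδ (fun j => ?_) (fun s => ?_) (fun s => ?_)
  · have h4 := h1 j (Set.mem_univ _)
    simp only [Pi.add_apply, pr, Set.mem_Icc] at h4
    have h5 := (lo_bd hN1 (X.τ j - δ)).1
    have h6 := (hi_bd hN1 (X.τ j + δ)).2
    have h7 : |v (.inl j) + (T j).re - X.τ j| ≤ δ + 1 / (2 * (N:ℝ)) := by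
      rw [abs_le]
      constructor <;> linarith
    have h8 := near_re h7 (im_le (hT j))
    unfold Tv
    linarith
  · have hr := (hB s).r0
    unfold Jv
    by_cases hs : X.α s 1 = 0
    · rw [haj s hs, bv_zero X v hs, hs]
      simp only [Complex.ofReal_zero, add_zero, sub_zero, norm_zero]
      linarith
    · have h4 := h2 ⟨s, hs⟩
      simp only [Pi.add_apply, pr, Set.mem_Icc] at h4
      have h5 := (lo_bd hN1 (X.α s 1 - r / 4)).1
      have h6 := (hi_bd hN1 (X.α s 1 + r / 4)).2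
      have hb : bv X v s = v (.inr (.inl ⟨s, hs⟩)) := by
        unfold bv
        rw [dif_pos hs]
      have h7 : |bv X v s + (J s).re - X.α s 1| ≤ r / 4 + 1 / (2 * (N:ℝ)) := by
        rw [hb, abs_le]
        constructor <;> linarith
      have h8 := near_re h7 (im_le (hJ s))
      linarith [hNr s, hρr s]
  · have hr := (hB s).r0
    have h4 := h3 s
    simp only [Pi.add_apply, pr, Set.mem_Icc] at h4
    have h5 := (th_bd hN1 hr (by linarith [(hB s).r1])).2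
    have h7 : |v (.inr (.inr s)) + (ζ s).re - 0| ≤ r / 4 := by
      rw [abs_le]
      constructor <;> linarith
    have hz : ‖ζ s - ((0:ℝ):ℂ)‖ < ρ := by simpa using hζ s
    have h8 := near_re h7 (im_le hz)
    rw [Complex.ofReal_zero, sub_zero] at h8
    unfold Zv
    linarith [hρr s]

theorem sx_ev (hB : ∀ s, Blk (X.α s) r κ K C0) (hδ0 : 0 < δ) (hρδ : ρ ≤ δ / 2)
    (hρr : ∀ s : Fin c, ρ ≤ r / 16)
    {T : Fin d → ℂ} {J ζ : Fin c → ℂ} (hn : X.Nr ρ T J ζ) (u : X.Ix → ℝ) :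
    ∀ᶠ N : ℕ in atTop, (fun i => u i / √(N:ℝ)) ∈ Sx X r δ N T J ζ := by
  obtain ⟨hT, hJ, hζ⟩ := hn
  have h2N : Tendsto (fun N : ℕ => 2 / (N:ℝ)) atTop (𝓝 0) := tendsto_const_div_atTop_nhds_zero_nat 2
  have hmain : ∀ (i : X.Ix) (x y : ℝ) (z : ℝ), |z - x| < y → ∀ᶠ N : ℕ in atTop,
      |u i / √(N:ℝ) + (z - x)| + 2 / N < y := by
    intro i x y z hz
    have h2 : Tendsto (fun N : ℕ => |u i / √(N:ℝ) + (z - x)| + 2 / (N:ℝ)) atTop
        (𝓝 (|0 + (z - x)| + 0)) := (((div_sqrt_tendsto _).add_const _).abs).add h2N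
    refine h2.eventually_lt_const ?_
    rw [zero_add, add_zero]
    exact hz
  have h1 : ∀ᶠ N : ℕ in atTop, ∀ j, |u (.inl j) / √(N:ℝ) + ((T j).re - X.τ j)| + 2 / N < δ := by
    rw [eventually_all]
    intro j
    exact hmain _ _ _ _ ((re_lt (hT j)).trans_le (by linarith))
  have h2 : ∀ᶠ N : ℕ in atTop, ∀ s : {s : Fin c // X.α s 1 ≠ 0},
      |u (.inr (.inl s)) / √(N:ℝ) + ((J s).re - X.α s 1)| + 2 / N < r / 4 := by
    rw [eventually_all]
    intro s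
    exact hmain _ _ _ _ ((re_lt (hJ s)).trans_le (by linarith [hρr s, (hB s).r0]))
  have h3 : ∀ᶠ N : ℕ in atTop, ∀ s, |u (.inr (.inr s)) / √(N:ℝ) + ((ζ s).re - 0)| + 2 / N < r / 4 := by
    rw [eventually_all]
    intro s
    have hz : ‖ζ s - ((0:ℝ):ℂ)‖ < ρ := by simpa using hζ s
    exact hmain _ _ _ _ ((re_lt hz).trans_le (by linarith [hρr s, (hB s).r0]))
  filter_upwards [h1, h2, h3, eventually_ge_atTop 1] with N h1 h2 h3 hN1
  have h0 : (0:ℝ) < N := by exact_mod_cast hN1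
  have e2 : (1:ℝ) / (2 * N) ≤ 2 / N := by
    rw [div_le_div_iff₀ (by positivity) h0]
    linarith
  refine ⟨fun j _ => ?_, fun s => ?_, fun s => ?_⟩
  · have h4 := h1 j
    have h5 := (lo_bd hN1 (X.τ j - δ)).2
    have h6 := (hi_bd hN1 (X.τ j + δ)).1
    have h7 := abs_lt.1 (lt_sub_iff_add_lt.2 h4)
    simp only [Pi.add_apply, pr, Set.mem_Icc]
    constructor <;> linarith [h7.1, h7.2]
  · have h4 := h2 s
    have h5 := (lo_bd hN1 (X.α s 1 - r / 4)).2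
    have h6 := (hi_bd hN1 (X.α s 1 + r / 4)).1
    have h7 := abs_lt.1 (lt_sub_iff_add_lt.2 h4)
    simp only [Pi.add_apply, pr, Set.mem_Icc]
    constructor <;> linarith [h7.1, h7.2]
  · have h4 := h3 s
    have h5 := (th_bd hN1 (hB s).r0 (by linarith [(hB s).r1])).1
    have h7 := abs_lt.1 (lt_sub_iff_add_lt.2 h4)
    simp only [Pi.add_apply, pr, Set.mem_Icc]
    constructor <;> linarith [h7.1, h7.2]

/-- the radius of the box -/
theorem exists_delta (hX : X.Ok) (hr : ∀ s : Fin c, 0 < r) : ∃ δ0 : ℝ, 0 < δ0 ∧ ∀ δ : ℝ, δ ≤ δ0 →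
    ∀ s, ∀ T : Fin d → ℂ, (∀ j, ‖T j - X.τ j‖ ≤ 2 * δ) →
      X.x T s ∈ Metric.ball (qC (X.α s)) (r / 4) := by
  set M : ℝ := ∑ s, ∑ i, ∑ j, |(X.E j s i : ℝ)| with hM
  have hM0 : 0 ≤ M := sum_nonneg fun s _ => sum_nonneg fun i _ => sum_nonneg fun j _ => abs_nonneg _
  set r1 : ℝ := if c = 0 then 1 else r with hr1
  have hr1s : ∀ s : Fin c, r1 = r := by
    intro s
    have : c ≠ 0 := by
      rintro rfl
      exact s.elim0
    rw [hr1, if_neg this]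
  have hr10 : 0 < r1 := by
    rw [hr1]
    split_ifs with h
    · exact one_pos
    · exact hr ⟨0, Nat.pos_of_ne_zero h⟩
  refine ⟨r1 / (16 * (M + 1)), by positivity, fun δ hδ s T hT => ?_⟩
  rw [hr1s s] at hδ
  have hr0 := hr s
  rw [mem_ball_iff_norm, pi_norm_lt_iff (by linarith)]
  intro i
  have e : X.x T s i - qC (X.α s) i = ∑ j, (T j - X.τ j) * X.E j s i := by
    unfold Nw.x qC
    rw [hX.ctr s i]
    push_cast
    rw [add_sub_add_left_eq_sub, ← sum_sub_distrib]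
    exact sum_congr rfl fun j _ => by ring
  rw [Pi.sub_apply, e]
  have h1 : ‖∑ j, (T j - X.τ j) * (X.E j s i : ℂ)‖ ≤ ∑ j, 2 * δ * |(X.E j s i : ℝ)| := by
    refine (norm_sum_le _ _).trans (sum_le_sum fun j _ => ?_)
    rw [norm_mul]
    have : ‖(X.E j s i : ℂ)‖ = |(X.E j s i : ℝ)| := by
      rw [Complex.norm_intCast]
    rw [this]
    exact mul_le_mul_of_nonneg_right (hT j) (abs_nonneg _)
  rw [← mul_sum] at h1
  have h2 : ∑ j, |(X.E j s i : ℝ)| ≤ M := by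
    have h3 : ∑ j, |(X.E j s i : ℝ)| ≤ ∑ i, ∑ j, |(X.E j s i : ℝ)| :=
      single_le_sum (f := fun i => ∑ j, |(X.E j s i : ℝ)|)
        (fun i _ => sum_nonneg fun j _ => abs_nonneg _) (mem_univ i)
    exact h3.trans (single_le_sum (f := fun s => ∑ i, ∑ j, |(X.E j s i : ℝ)|)
        (fun s _ => sum_nonneg fun i _ => sum_nonneg fun j _ => abs_nonneg _) (mem_univ s))
  have h3 : 0 ≤ ∑ j, |(X.E j s i : ℝ)| := sum_nonneg fun j _ => abs_nonneg _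
  refine h1.trans_lt ?_
  have h4 : 2 * δ * ∑ j, |(X.E j s i : ℝ)| ≤ 2 * (r / (16 * (M + 1))) * M := by
    by_cases hd : 0 ≤ δ
    · have : δ * ∑ j, |(X.E j s i : ℝ)| ≤ (r / (16 * (M + 1))) * M := by
        gcongr
      linarith
    · push Not at hd
      have h5 : δ * ∑ j, |(X.E j s i : ℝ)| ≤ 0 := mul_nonpos_of_nonpos_of_nonneg hd.le h3
      have h6 : 0 ≤ (r / (16 * (M + 1))) * M := by positivity
      linarith
  refine h4.trans_lt ?_
  have h5 : 2 * (r / (16 * (M + 1))) * M = r / 8 * (M / (M + 1)) := by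
    field_simp
    ring
  rw [h5]
  have h6 : M / (M + 1) ≤ 1 := by
    rw [div_le_one (by linarith)]
    linarith
  nlinarith

end pts

end Pool.Agent.Q239.HT
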