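import Pool.Agent.Q99.HT.Stm4

/-! Project HT (helper99), job MXN (helper239): the maximum at the saddle point. -/

set_option autoImplicit false

namespace Pool.Agent.Q239.HT

open Finset Filter Topology
open Pool.Agent.Q99.HT

/-- Taylor's inequality along a segment -/
theorem max_line {F F1 F2 : ℝ → ℂ} {S : ℝ}
    (hFd : ∀ t ∈ Set.Icc (0:ℝ) 1, HasDerivAt F (F1 t) t)
    (hF1d : ∀ t ∈ Set.Icc (0:ℝ) 1, HasDerivAt F1 (F2 t) t)
    (hF10 : (F1 0).re = 0) (hF2le : ∀ t ∈ Set.Icc (0:ℝ) 1, (F2 t).re ≤ -(2 * S)) :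
    (F 1).re ≤ (F 0).re - S := by
  have hgd : ∀ t ∈ Set.Icc (0:ℝ) 1, HasDerivAt (fun t => (F t).re + S * t ^ 2)
      ((F1 t).re + 2 * S * t) t := by
    intro t ht
    have h1 := Complex.reCLM.hasFDerivAt.comp_hasDerivAt t (hFd t ht)
    have h2 : HasDerivAt (fun t : ℝ => S * t ^ 2) (S * (2 * t)) t := by
      have := (hasDerivAt_pow 2 t).const_mul S
      simpa using this
    refine (h1.add h2).congr_deriv ?_
    simp only [Complex.reCLM_apply]
    ring
  have hg1d : ∀ t ∈ Set.Icc (0:ℝ) 1, HasDerivAt (fun t => (F1 t).re + 2 * S * t)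
      ((F2 t).re + 2 * S) t := by
    intro t ht
    have h1 := Complex.reCLM.hasFDerivAt.comp_hasDerivAt t (hF1d t ht)
    have h2 : HasDerivAt (fun t : ℝ => 2 * S * t) (2 * S) t := by
      have := (hasDerivAt_id t).const_mul (2 * S)
      simpa using this
    exact h1.add h2
  have hanti1 : AntitoneOn (fun t => (F1 t).re + 2 * S * t) (Set.Icc (0:ℝ) 1) := by
    refine antitoneOn_of_deriv_nonpos (convex_Icc 0 1)
      (fun t ht => (hg1d t ht).continuousAt.continuousWithinAt)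
      (fun t ht => (hg1d t (interior_subset ht)).differentiableAt.differentiableWithinAt)
      fun t ht => ?_
    rw [(hg1d t (interior_subset ht)).deriv]
    linarith [hF2le t (interior_subset ht)]
  have hanti : AntitoneOn (fun t => (F t).re + S * t ^ 2) (Set.Icc (0:ℝ) 1) := by
    refine antitoneOn_of_deriv_nonpos (convex_Icc 0 1)
      (fun t ht => (hgd t ht).continuousAt.continuousWithinAt)
      (fun t ht => (hgd t (interior_subset ht)).differentiableAt.differentiableWithinAt)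
      fun t ht => ?_
    have ht' := interior_subset ht
    rw [(hgd t ht').deriv]
    have := hanti1 ⟨le_rfl, zero_le_one⟩ ht' ht'.1
    simp only [hF10, mul_zero, add_zero] at this
    exact this
  have hfin := hanti ⟨le_rfl, zero_le_one⟩ ⟨zero_le_one, le_rfl⟩ zero_le_one
  simp only [one_pow, mul_one] at hfin
  have hz2 : S * (0:ℝ) ^ 2 = 0 := by ring
  linarith

/-- an injective linear map is bounded below -/
theorem inj_bound {c d : ℕ} (E : Fin d → Fin c → Fin 3 → ℤ)
    (hE : ∀ t : Fin d → ℝ, (∀ s i, ∑ j, t j * E j s i = 0) → t = 0) :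
    ∃ κ1 : ℝ, 0 < κ1 ∧ κ1 ≤ 1 ∧ ∀ a : Fin d → ℝ,
      κ1 * ∑ j, a j ^ 2 ≤ ∑ s, ∑ i, (∑ j, a j * (E j s i : ℝ)) ^ 2 := by
  let A : (Fin d → ℝ) →ₗ[ℝ] (Fin c → Fin 3 → ℝ) :=
    { toFun := fun a s i => ∑ j, a j * (E j s i : ℝ)
      map_add' := fun a b => by
        ext s i
        simp only [Pi.add_apply, add_mul, sum_add_distrib]
      map_smul' := fun r a => by
        ext s i
        simp only [Pi.smul_apply, smul_eq_mul, RingHom.id_apply, mul_assoc, mul_sum] }
  have hA : LinearMap.ker A = ⊥ := by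
    rw [LinearMap.ker_eq_bot']
    intro a ha
    apply hE
    intro s i
    exact congrFun (congrFun ha s) i
  obtain ⟨K, -, hK⟩ := LinearMap.exists_antilipschitzWith A hA
  have hD : (0 : ℝ) < d * (K : ℝ) ^ 2 + 1 := by positivity
  refine ⟨1 / (d * (K : ℝ) ^ 2 + 1), by positivity, ?_, fun a => ?_⟩
  · rw [div_le_one hD]
    have : 0 ≤ (d : ℝ) * (K : ℝ) ^ 2 := by positivity
    linarith
  · set Q := ∑ s, ∑ i, (∑ j, a j * (E j s i : ℝ)) ^ 2 with hQ
    have hQ0 : 0 ≤ Q := sum_nonneg fun s _ => sum_nonneg fun i _ => sq_nonneg _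
    have h1 : ‖a‖ ≤ K * ‖A a‖ := by
      have := hK.le_mul_dist a 0
      simpa using this
    have h2 : ‖A a‖ ≤ √Q := by
      rw [pi_norm_le_iff_of_nonneg (Real.sqrt_nonneg _)]
      intro s
      rw [pi_norm_le_iff_of_nonneg (Real.sqrt_nonneg _)]
      intro i
      rw [Real.norm_eq_abs]
      apply Real.abs_le_sqrt
      have h3 : (A a s i) ^ 2 ≤ ∑ i, (∑ j, a j * (E j s i : ℝ)) ^ 2 :=
        single_le_sum (f := fun i => (∑ j, a j * (E j s i : ℝ)) ^ 2) (fun i _ => sq_nonneg _) (mem_univ i)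
      refine h3.trans ?_
      exact single_le_sum (f := fun s => ∑ i, (∑ j, a j * (E j s i : ℝ)) ^ 2)
        (fun s _ => sum_nonneg fun i _ => sq_nonneg _) (mem_univ s)
    have h3 : ∀ j, a j ^ 2 ≤ (K : ℝ) ^ 2 * Q := by
      intro j
      have h4 : |a j| ≤ K * √Q := (norm_le_pi_norm a j).trans (h1.trans (by gcongr))
      have h5 := pow_le_pow_left₀ (abs_nonneg _) h4 2
      rwa [sq_abs, mul_pow, Real.sq_sqrt hQ0] at h5
    have h4 : ∑ j, a j ^ 2 ≤ d * ((K : ℝ) ^ 2 * Q) := by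
      have := sum_le_card_nsmul (univ : Finset (Fin d)) (fun j => a j ^ 2) _ (fun j _ => h3 j)
      simpa using this
    rw [div_mul_eq_mul_div, one_mul, div_le_iff₀ hD]
    nlinarith

variable {c d : ℕ}

theorem v_line (X : Nw c d) (T a : Fin d → ℂ) (J b : Fin c → ℂ) (t : ℂ) (s : Fin c) :
    X.v (fun j => T j + t * a j) (fun s => J s + t * b s) s = X.v T J s + t • X.dv a b s := by
  have hx : ∀ i, X.x (fun j => T j + t * a j) s i = X.x T s i + t * ∑ j, a j * X.E j s i := by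
    intro i
    unfold Nw.x
    rw [mul_sum, add_assoc, ← sum_add_distrib]
    congr 1
    refine sum_congr rfl fun j _ => ?_
    ring
  ext i
  fin_cases i
  · exact hx 0
  · exact hx 1
  · exact hx 2
  · rfl

/-- real directions -/
def ur (X : Nw c d) (a : Fin d → ℝ) (b : Fin c → ℝ) (s : Fin c) : Fin 4 → ℝ :=
  ![∑ j, a j * X.E j s 0, ∑ j, a j * X.E j s 1, ∑ j, a j * X.E j s 2, b s]

theorem dv_real (X : Nw c d) (a : Fin d → ℝ) (b : Fin c → ℝ) (s : Fin c) :
    X.dv (fun j => (a j : ℂ)) (fun s => (b s : ℂ)) s = fun i => (ur X a b s i : ℂ) := by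
  ext i
  fin_cases i <;> simp [Nw.dv, ur]

theorem adm_dv {X : Nw c d} (hX : X.Ok) {a : Fin d → ℂ} {b : Fin c → ℂ} {s : Fin c}
    (hb : X.α s 1 = 0 → b s = 0) : Adm (X.α s) (X.dv a b s) := by
  have hz : ∀ i, qc (X.α s) i = 0 → ∑ j, a j * X.E j s i = 0 := by
    intro i hi
    refine sum_eq_zero fun j _ => ?_
    rw [(hX.zer s i hi).2 j]
    simp
  refine ⟨fun h => hz 0 h, fun h => ⟨hz 1 ?_, hb h⟩, fun h => hz 2 h⟩
  show X.α s 1 + X.α s 4 = 0
  rw [h, ((hX.fr s).z14).1 h, add_zero]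

theorem rg_line {X : Nw c d} {r : ℝ} {T a : Fin d → ℂ} {J b ζ g : Fin c → ℂ}
    (h0 : X.Rg r T J ζ) (h1 : X.Rg r (fun j => T j + a j) (fun s => J s + b s) (fun s => ζ s + g s))
    {t : ℝ} (ht : t ∈ Set.Icc (0:ℝ) 1) :
    X.Rg r (fun j => T j + t * a j) (fun s => J s + t * b s) (fun s => ζ s + t * g s) := by
  intro s
  have e1 : X.v (fun j => T j + a j) (fun s => J s + b s) s = X.v T J s + X.dv a b s := by
    have := v_line X T a J b 1 s
    simpa using this
  have hc1 := (convex_ball (vC (X.α s)) r) (h0 s).1 (h1 s).1 (sub_nonneg.2 ht.2) ht.1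
    (by ring : (1 - t) + t = 1)
  have hc2 := (convex_ball (0:ℂ) r) (mem_ball_zero_iff.2 (h0 s).2) (mem_ball_zero_iff.2 (h1 s).2)
    (sub_nonneg.2 ht.2) ht.1 (by ring : (1 - t) + t = 1)
  constructor
  · rw [v_line]
    convert! hc1 using 1
    rw [e1]
    ext i
    simp only [Pi.add_apply, Pi.smul_apply, Complex.real_smul, smul_eq_mul]
    push_cast
    ring
  · rw [mem_ball_zero_iff] at hc2
    convert! hc2 using 2
    simp only [Complex.real_smul]
    push_cast
    ring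

theorem line_lin (x g : ℂ) (t : ℝ) : HasDerivAt (fun t : ℝ => x + t * g) g t := by
  have h := ((Complex.ofRealCLM.hasDerivAt (x := t)).mul_const g).const_add x
  have h' : Complex.ofRealCLM 1 * g = g := by simp
  rw [h'] at h
  exact h

theorem shift1 {G : ℂ → ℂ} {d : ℂ} {t0 : ℝ} (h : HasDerivAt (fun t : ℂ => G (t0 + t)) d 0) :
    HasDerivAt (fun t : ℝ => G t) d t0 := by
  have h1 : HasDerivAt (fun t : ℝ => ((t - t0 : ℝ) : ℂ)) 1 t0 := by
    have := ((hasDerivAt_id t0).sub_const t0).ofReal_comp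
    simpa using this
  have h2 : HasDerivAt (fun t : ℝ => G (t0 + ((t - t0 : ℝ) : ℂ))) (d * 1) t0 := by
    refine HasDerivAt.comp_of_eq (h₂ := fun t : ℂ => G (t0 + t)) t0 h h1 ?_
    simp
  rw [mul_one] at h2
  refine h2.congr_of_eventuallyEq (Filter.Eventually.of_forall fun t => ?_)
  have e1 : (t : ℂ) = t0 + ((t - t0 : ℝ) : ℂ) := by push_cast; ring
  show G t = G (t0 + ((t - t0 : ℝ) : ℂ))
  rw [← e1]

/-- derivatives of the potential along a line -/
theorem Ph_line {X : Nw c d} {r κ K C0 : ℝ} (hB : ∀ s, Blk (X.α s) r κ K C0) (w : Fin c → ℤ)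
    {T a : Fin d → ℂ} {J b ζ g : Fin c → ℂ} {t : ℝ}
    (ht : X.Rg r (fun j => T j + t * a j) (fun s => J s + t * b s) (fun s => ζ s + t * g s))
    (a' : Fin d → ℂ) (b' g' : Fin c → ℂ) :
    HasDerivAt (fun t : ℝ => X.Ph w (fun j => T j + t * a j) (fun s => J s + t * b s)
      (fun s => ζ s + t * g s))
      (X.GP w (fun j => T j + t * a j) (fun s => J s + t * b s) (fun s => ζ s + t * g s) a b g) t ∧
    HasDerivAt (fun t : ℝ => X.GP w (fun j => T j + t * a j) (fun s => J s + t * b s)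
      (fun s => ζ s + t * g s) a' b' g')
      (X.HP w (fun j => T j + t * a j) (fun s => J s + t * b s) (fun s => ζ s + t * g s) a b g a' b' g') t := by
  unfold Nw.Ph Nw.GP Nw.HP
  constructor
  · refine HasDerivAt.fun_sum fun s _ => ?_
    have h1 := ((hB s).der _ (ht s).1 _ (ht s).2 (X.dv a b s) 0 (g s) 0).1
    have h2 : HasDerivAt (fun t : ℝ => PE (X.α s) (X.v (fun j => T j + t * a j)
        (fun s => J s + t * b s) s) (ζ s + t * g s)) (PG (X.α s) (X.v (fun j => T j + t * a j)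
        (fun s => J s + t * b s) s) (ζ s + t * g s) (X.dv a b s) (g s)) t := by
      refine shift1 (G := fun z : ℂ => PE (X.α s) (X.v (fun j => T j + z * a j)
        (fun s => J s + z * b s) s) (ζ s + z * g s)) (t0 := t) ?_
      refine h1.congr_of_eventuallyEq (Filter.Eventually.of_forall fun z => ?_)
      show PE (X.α s) (X.v (fun j => T j + (t + z) * a j) (fun s => J s + (t + z) * b s) s)
        (ζ s + (t + z) * g s) = _
      rw [v_line, v_line]
      congr 1
      · rw [add_smul, add_assoc]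
      · ring
    have h3 := line_lin (ζ s) (g s) t
    have h4 := (((h3.pow 2).const_mul (Complex.I * Real.pi * w s)).div_const 4).add
      (h3.const_mul (Complex.I * Real.pi))
    have h5 := h2.add h4
    refine (h5.congr_deriv ?_).congr_of_eventuallyEq (Filter.Eventually.of_forall fun z => ?_)
    · push_cast
      ring
    · simp only [Pi.add_apply, Pi.pow_apply]
      ring
  · refine HasDerivAt.fun_sum fun s _ => ?_
    have h1 := ((hB s).der _ (ht s).1 _ (ht s).2 (X.dv a b s) (X.dv a' b' s) (g s) (g' s)).2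
    have h2 : HasDerivAt (fun t : ℝ => PG (X.α s) (X.v (fun j => T j + t * a j)
        (fun s => J s + t * b s) s) (ζ s + t * g s) (X.dv a' b' s) (g' s))
        (PH (X.α s) (X.v (fun j => T j + t * a j)
        (fun s => J s + t * b s) s) (ζ s + t * g s) (X.dv a b s) (g s) (X.dv a' b' s) (g' s)) t := by
      refine shift1 (G := fun z : ℂ => PG (X.α s) (X.v (fun j => T j + z * a j)
        (fun s => J s + z * b s) s) (ζ s + z * g s) (X.dv a' b' s) (g' s)) (t0 := t) ?_
      refine h1.congr_of_eventuallyEq (Filter.Eventually.of_forall fun z => ?_)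
      show PG (X.α s) (X.v (fun j => T j + (t + z) * a j) (fun s => J s + (t + z) * b s) s)
        (ζ s + (t + z) * g s) _ _ = _
      rw [v_line, v_line]
      congr 1
      · rw [add_smul, add_assoc]
      · ring
    have h3 := line_lin (ζ s) (g s) t
    have h4 := (((h3.const_mul (Complex.I * Real.pi * w s)).div_const 2).add_const
      (Complex.I * Real.pi)).mul_const (g' s)
    have h5 := h2.add h4
    refine (h5.congr_deriv ?_).congr_of_eventuallyEq (Filter.Eventually.of_forall fun z => ?_)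
    · ring
    · rfl

/-- the second derivative in real directions -/
theorem HP_le {X : Nw c d} (hX : X.Ok) {r κ K C0 : ℝ} (hB : ∀ s, Blk (X.α s) r κ K C0)
    (w : Fin c → ℤ) {T : Fin d → ℂ} {J ζ : Fin c → ℂ} (ht : X.Rg r T J ζ) (a : Fin d → ℝ)
    (b g : Fin c → ℝ) (hb : ∀ s, X.α s 1 = 0 → b s = 0) :
    (X.HP w T J ζ (fun j => (a j : ℂ)) (fun s => (b s : ℂ)) (fun s => (g s : ℂ))
      (fun j => (a j : ℂ)) (fun s => (b s : ℂ)) (fun s => (g s : ℂ))).re ≤
      -(2 * (κ * (∑ s, ∑ i, (∑ j, a j * (X.E j s i : ℝ)) ^ 2 + ∑ s, b s ^ 2 + ∑ s, g s ^ 2))) := by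
  unfold Nw.HP
  rw [Complex.re_sum]
  have h1 : ∀ s, (PH (X.α s) (X.v T J s) (ζ s) (X.dv (fun j => (a j : ℂ)) (fun s => (b s : ℂ)) s) (g s)
      (X.dv (fun j => (a j : ℂ)) (fun s => (b s : ℂ)) s) (g s) +
      Complex.I * Real.pi * w s / 2 * g s * g s).re ≤
      -(2 * κ) * (∑ i, (∑ j, a j * (X.E j s i : ℝ)) ^ 2 + b s ^ 2 + g s ^ 2) := by
    intro s
    rw [Complex.add_re]
    have h2 : (Complex.I * Real.pi * w s / 2 * g s * g s).re = 0 := by
      have : Complex.I * Real.pi * w s / 2 * g s * g s =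
          ((Real.pi * w s * g s ^ 2 / 2 : ℝ) : ℂ) * Complex.I := by push_cast; ring
      rw [this, Complex.re_ofReal_mul, Complex.I_re, mul_zero]
    rw [h2, add_zero, dv_real]
    have hadm : Adm (X.α s) (fun i => (ur X a b s i : ℂ)) := by
      rw [← dv_real]
      refine adm_dv hX fun h => ?_
      rw [hb s h]
      simp
    refine ((hB s).hes _ (ht s).1 _ (ht s).2 (ur X a b s) (g s) hadm).trans (le_of_eq ?_)
    rw [Fin.sum_univ_four, Fin.sum_univ_three]
    simp only [ur, Matrix.cons_val_zero, Matrix.cons_val_one, Matrix.cons_val]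
  refine (sum_le_sum fun s _ => h1 s).trans (le_of_eq ?_)
  rw [← mul_sum, sum_add_distrib, sum_add_distrib]
  ring

/-- **job MXN** -/
theorem task_MXN : S_MXN := by
  intro c d X hX r κ K C0 hB
  obtain ⟨κ1, hκ1, hκ11, hκ⟩ := inj_bound X.E hX.inj
  have hκ0 : ∀ s : Fin c, 0 < κ := fun s => (hB s).κ0
  set κ0 : ℝ := if c = 0 then 1 else κ with hκ0def
  have hκ0pos : 0 < κ0 := by
    rw [hκ0def]
    split_ifs with h
    · exact one_pos
    · exact hκ0 ⟨0, Nat.pos_of_ne_zero h⟩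
  refine ⟨κ0 * κ1, mul_pos hκ0pos hκ1, fun w T J ζ hcr hrg a b g hb hrg2 => ?_⟩
  set A := ∑ s, ∑ i, (∑ j, a j * (X.E j s i : ℝ)) ^ 2 with hA
  set S := κ * (A + ∑ s, b s ^ 2 + ∑ s, g s ^ 2) with hS
  have hrgt : ∀ t ∈ Set.Icc (0:ℝ) 1, X.Rg r (fun j => T j + t * (a j : ℂ))
      (fun s => J s + t * (b s : ℂ)) (fun s => ζ s + t * (g s : ℂ)) := fun t ht =>
    rg_line hrg hrg2 ht
  have hmax := max_line (S := S)
    (F := fun t : ℝ => X.Ph w (fun j => T j + t * a j) (fun s => J s + t * b s) (fun s => ζ s + t * g s))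
    (F1 := fun t : ℝ => X.GP w (fun j => T j + t * a j) (fun s => J s + t * b s)
      (fun s => ζ s + t * g s) (fun j => (a j : ℂ)) (fun s => (b s : ℂ)) (fun s => (g s : ℂ)))
    (F2 := fun t : ℝ => X.HP w (fun j => T j + t * a j) (fun s => J s + t * b s)
      (fun s => ζ s + t * g s) (fun j => (a j : ℂ)) (fun s => (b s : ℂ)) (fun s => (g s : ℂ))
      (fun j => (a j : ℂ)) (fun s => (b s : ℂ)) (fun s => (g s : ℂ)))
    (fun t ht => (Ph_line hB w (hrgt t ht) 0 0 0).1)
    (fun t ht => (Ph_line hB w (hrgt t ht) _ _ _).2)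
    (by
      simp only [Complex.ofReal_zero, zero_mul, add_zero]
      rw [hcr.eq _ _ _ (fun s hs => by rw [hb s hs]; simp)]
      rfl)
    (fun t ht => HP_le hX hB w (hrgt t ht) a b g hb)
  simp only [Complex.ofReal_zero, Complex.ofReal_one, zero_mul, one_mul, add_zero] at hmax
  refine hmax.trans (sub_le_sub_left ?_ _)
  have hA0 : 0 ≤ A := sum_nonneg fun s _ => sum_nonneg fun i _ => sq_nonneg _
  have ha0 : 0 ≤ ∑ j, a j ^ 2 := sum_nonneg fun s _ => sq_nonneg _
  have hb0 : 0 ≤ ∑ s, b s ^ 2 := sum_nonneg fun s _ => sq_nonneg _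
  have hg0 : 0 ≤ ∑ s, g s ^ 2 := sum_nonneg fun s _ => sq_nonneg _
  have h1 := hκ a
  have h2 : κ1 * (∑ j, a j ^ 2 + ∑ s, b s ^ 2 + ∑ s, g s ^ 2) ≤ A + ∑ s, b s ^ 2 + ∑ s, g s ^ 2 := by
    nlinarith
  by_cases hc : c = 0
  · subst hc
    have hA00 : A = 0 := by rw [hA]; simp
    have hb00 : ∑ s, b s ^ 2 = 0 := by simp
    have hg00 : ∑ s, g s ^ 2 = 0 := by simp
    rw [hS, hA00, hb00, hg00] at *
    have ha00 : ∑ j, a j ^ 2 = 0 := by
      have : κ1 * ∑ j, a j ^ 2 ≤ 0 := by simpa using h1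
      nlinarith
    rw [ha00]
    simp
  · have : κ0 = κ := by rw [hκ0def, if_neg hc]
    rw [hS, this, mul_assoc]
    exact mul_le_mul_of_nonneg_left h2 (this ▸ hκ0pos.le)

end Pool.Agent.Q239.HT
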